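import Pool.Agent.J6H49.SY.Z2

/-!
# The values at the gates of circuits that are symmetric under a power of `Z/2`
-/

set_option autoImplicit false

open Finset

namespace Pool.Agent.J6H28.S2.Eng

open Pool.Agent.Y600.Circ (Circuit view)
open Pool.Agent.J6H49.SY.Z2

theorem eval_eq {B D L : Type} (C : Circuit B D L) (x : B → Bool) (g : C.Gate) :
    C.eval x g = C.fn g ((C.read g).map x) ((C.wires g).map fun e => (e.1, C.eval x e.2)) := by
  rw [Circuit.eval]
  congr 1
  exact Multiset.attach_map_val' (C.wires g) fun e => (e.1, C.eval x e.2)

theorem nsmul_inj {Y : Type} {n : ℕ} (hn : n ≠ 0) {a b : Multiset Y} (h : n • a = n • b) :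
    a = b := by
  classical
  ext y
  have h1 := congrArg (Multiset.count y) h
  rw [Multiset.count_nsmul, Multiset.count_nsmul] at h1
  exact Nat.eq_of_mul_eq_mul_left (Nat.pos_of_ne_zero hn) h1

theorem main : S_ENG3 := by
  classical
  intro ι _ _ m D L C M R hinv h2 h3 h4
  have hmain : ∀ (r : ℕ) (g : C.Gate), C.rank g = r → ∀ x y, R (M g) x y →
      C.eval x g = C.eval y g := by
    intro r
    induction r using Nat.strong_induction_on with
    | _ r ih =>
      intro g hr x y hxy
      -- the stabilizer
      let F : Finset (ι → Bool) := univ.filter fun γ => ∀ c ∈ M g, dot c γ = 0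
      have hF : ∀ γ, γ ∈ F ↔ ∀ c ∈ M g, dot c γ = 0 := fun γ => by simp [F]
      have hdot0 : ∀ c : ι → ZMod 2, dot c (fun _ : ι => false) = 0 := by
        intro c
        unfold dot
        exact sum_eq_zero fun i _ => by simp [Pool.Agent.J6H49.SY.toZ]
      have hdot : ∀ (c : ι → ZMod 2) (v w : ι → Bool),
          dot c (fun i => v i ^^ w i) = dot c v + dot c w := by
        intro c v w
        unfold dot
        rw [← sum_add_distrib]
        refine sum_congr rfl fun i _ => ?_
        rw [← mul_add]
        congr 1
        have h7 : ∀ p q : Bool, Pool.Agent.J6H49.SY.toZ (p ^^ q) =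
            Pool.Agent.J6H49.SY.toZ p + Pool.Agent.J6H49.SY.toZ q := by decide
        exact h7 _ _
      have hF1 : (fun _ : ι => false) ∈ F := (hF _).2 fun c _ => hdot0 c
      have hcard : F.card ≠ 0 := (card_pos.2 ⟨_, hF1⟩).ne'
      have hact : ∀ (w γ : ι → Bool) (z : Clause ι m → Bool),
          act γ (act w z) = act (fun i => w i ^^ γ i) z := by
        intro w γ z
        funext c
        unfold act mc
        congr 1
        funext k
        refine Prod.ext ?_ rfl
        show mv w (mv γ (c k).1) = mv (fun i => w i ^^ γ i) (c k).1
        rcases (c k).1 with p | j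
        · simp only [mv, Sum.map_inl, Sum.inl.injEq, Prod.mk.injEq, true_and]
          cases p.2 <;> cases γ p.1 <;> cases w p.1 <;> rfl
        · rfl
      rw [eval_eq, eval_eq]
      congr 1
      · cases hread : C.read g with
        | none => rfl
        | some c =>
          rw [Option.map_some, Option.map_some]
          congr 1
          refine h4 g x y c hxy fun γ hγ => ?_
          have h5 := congrArg Prod.fst (hinv g γ hγ)
          simp only [view, hread, Option.map_some, Option.some.injEq] at h5
          have h6 := congrFun h5 fun d => decide (d = c)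
          simpa [act] using h6
      · have key : ∀ z : Clause ι m → Bool,
            F.card • ((C.wires g).map fun e => (e.1, C.eval z e.2)) =
              ((C.wires g).map fun e => ∑ γ ∈ F,
                ({(e.1, C.eval (act γ z) e.2)} : Multiset (L × D))).sum := by
          intro z
          refine Eq.trans ?_ (Multiset.sum_map_sum_map (C.wires g) F.val
            (f := fun e γ => ({(e.1, C.eval (act γ z) e.2)} : Multiset (L × D)))).symm
          rw [← sum_const]
          refine sum_congr rfl fun γ hγ => ?_
          have h5 := congrArg Prod.snd (hinv g γ ((hF γ).1 hγ))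
          simp only [view] at h5
          have h6 := congrArg (Multiset.map fun e : L × ((Clause ι m → Bool) → D) => (e.1, e.2 z)) h5
          simp only [Multiset.map_map, Function.comp_def, id] at h6
          rw [← h6]
          have h7 := Multiset.sum_map_singleton
            ((C.wires g).map fun e => (e.1, C.eval (act γ z) e.2))
          rw [Multiset.map_map] at h7
          exact h7.symm
        refine nsmul_inj hcard ?_
        rw [key, key]
        congr 1
        refine Multiset.map_congr rfl fun e he => ?_
        obtain ⟨w, hw, hR⟩ := h3 g e.2 x y hxy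
        have h5 : ∀ γ, C.eval (act γ x) e.2 = C.eval (act (fun i => w i ^^ γ i) y) e.2 := fun γ => by
          rw [← hact]
          exact ih _ (hr ▸ C.rank_lt g e he) e.2 rfl _ _ (h2 _ _ _ _ hR)
        rw [sum_congr rfl fun γ _ => by rw [h5 γ]]
        have hww : ∀ γ : ι → Bool, (fun i => w i ^^ (w i ^^ γ i)) = γ := by
          intro γ
          funext i
          cases w i <;> cases γ i <;> rfl
        refine sum_nbij' (fun γ i => w i ^^ γ i) (fun γ i => w i ^^ γ i) ?_ ?_ ?_ ?_ ?_
        · intro γ hγ
          refine (hF _).2 fun c hc => ?_
          rw [hdot, hw c hc, (hF γ).1 hγ c hc, add_zero]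
        · intro γ hγ
          refine (hF _).2 fun c hc => ?_
          rw [hdot, hw c hc, (hF γ).1 hγ c hc, add_zero]
        · exact fun γ _ => hww γ
        · exact fun γ _ => hww γ
        · exact fun γ _ => rfl
  exact fun g x y h => hmain _ g rfl x y h

end Pool.Agent.J6H28.S2.Eng
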